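import Pool.Agent.H773.IE.SH

/-! Project IE: vectors fixed by the diagonal matrices at `i,j` are fixed by the group. -/

set_option autoImplicit false

open MeasureTheory Set Filter Topology
open scoped ENNReal

namespace Pool.Agent.H707.IE

open Pool.Agent.H773.IE Matrix

section

variable {d : ℕ}

theorem cont_transv {k l : Fin d} (hkl : k ≠ l) :
    Continuous fun s : ℝ => (SpecialLinearGroup.transvection hkl s : SLR d) := by
  refine continuous_induced_rng.2 (continuous_matrix fun a b => ?_)
  change Continuous fun s : ℝ => ((1 : Matrix (Fin d) (Fin d) ℝ) + Matrix.single k l s) a b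
  have h : (fun s : ℝ => ((1 : Matrix (Fin d) (Fin d) ℝ) + Matrix.single k l s) a b) =
      fun s : ℝ => (1 : Matrix (Fin d) (Fin d) ℝ) a b + if k = a ∧ l = b then s else 0 := by
    funext s
    rw [Matrix.add_apply, Matrix.single_apply]
  rw [h]
  refine continuous_const.add ?_
  split_ifs
  · exact continuous_id
  · exact continuous_const

/-- the diagonal entries -/
noncomputable def dg (i j : Fin d) (a : ℝ) (k : Fin d) : ℝ :=
  if k = i then a else if k = j then a⁻¹ else 1

theorem diag_transv {i j k l : Fin d} (hij : i ≠ j) (hkl : k ≠ l) (a : ℝ) (ha : a ≠ 0) (t x : ℝ)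
    (hx : dg i j a k * t = x * dg i j a l) :
    SpecialLinearGroup.diag2n hij a ha * SpecialLinearGroup.transvection hkl t =
      SpecialLinearGroup.transvection hkl x * SpecialLinearGroup.diag2n hij a ha := by
  apply Subtype.ext
  change Matrix.diagonal (dg i j a) * ((1 : Matrix (Fin d) (Fin d) ℝ) + Matrix.single k l t) =
    ((1 : Matrix (Fin d) (Fin d) ℝ) + Matrix.single k l x) * Matrix.diagonal (dg i j a)
  rw [Matrix.mul_add, Matrix.add_mul, Matrix.mul_one, Matrix.one_mul]
  congr 1
  ext p q
  rw [Matrix.diagonal_mul, Matrix.mul_diagonal, Matrix.single_apply, Matrix.single_apply]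
  by_cases h : k = p ∧ l = q
  · obtain ⟨rfl, rfl⟩ := h
    rw [if_pos ⟨rfl, rfl⟩, if_pos ⟨rfl, rfl⟩]
    exact hx
  · rw [if_neg h, if_neg h, mul_zero, zero_mul]

theorem comm_aux (A B : Matrix (Fin d) (Fin d) ℝ) (hAA : A * A = 0) (hBB : B * B = 0)
    (hBA : B * A = 0) : (1 + A) * (1 + B) * (1 - A) * (1 - B) = 1 + A * B := by
  have h1 : (1 + A) * (1 + B) * (1 - A) = 1 + B + A * B := by
    have : (1 + A) * (1 + B) * (1 - A) = 1 + B + A * B - A * A - B * A - A * (B * A) := by
      noncomm_ring
    rw [this, hAA, hBA, Matrix.mul_zero, sub_zero, sub_zero, sub_zero]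
  rw [h1]
  have : (1 + B + A * B) * (1 - B) = 1 + A * B - B * B - A * (B * B) := by noncomm_ring
  rw [this, hBB, Matrix.mul_zero, sub_zero, sub_zero]

theorem transv_comm {i k l : Fin d} (hki : k ≠ i) (hil : i ≠ l) (hkl : k ≠ l) (t : ℝ) :
    SpecialLinearGroup.transvection hkl t =
      SpecialLinearGroup.transvection hki t * SpecialLinearGroup.transvection hil 1 *
        SpecialLinearGroup.transvection hki (-t) * SpecialLinearGroup.transvection hil (-1) := by
  apply Subtype.ext
  change (1 : Matrix (Fin d) (Fin d) ℝ) + Matrix.single k l t =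
    ((1 : Matrix (Fin d) (Fin d) ℝ) + Matrix.single k i t) *
      ((1 : Matrix (Fin d) (Fin d) ℝ) + Matrix.single i l 1) *
      ((1 : Matrix (Fin d) (Fin d) ℝ) + Matrix.single k i (-t)) *
      ((1 : Matrix (Fin d) (Fin d) ℝ) + Matrix.single i l (-1))
  have h1 : Matrix.single k i (-t) = -Matrix.single k i t := (Matrix.single_neg _ _ _).symm
  have h2 : Matrix.single i l (-1 : ℝ) = -Matrix.single i l 1 := (Matrix.single_neg _ _ _).symm
  rw [h1, h2, ← sub_eq_add_neg, ← sub_eq_add_neg, comm_aux, Matrix.single_mul_single_same, mul_one]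
  · exact Matrix.single_mul_single_of_ne _ _ _ _ hki.symm _
  · exact Matrix.single_mul_single_of_ne _ _ _ _ hil.symm _
  · exact Matrix.single_mul_single_of_ne _ _ _ _ hkl.symm _

end

theorem t_H4 (h3 : S_H3) : S_H4 := by
  intro d H _ _ _ U hU i j hij v hv g
  -- contraction of transvections
  have hstep : ∀ (k l : Fin d) (hkl : k ≠ l) (a c : ℝ), a ≠ 0 →
      dg i j a k = c * dg i j a l → ∀ t : ℝ,
      ‖U (SpecialLinearGroup.transvection hkl t) v - v‖ =
        ‖U (SpecialLinearGroup.transvection hkl (c * t)) v - v‖ := by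
    intro k l hkl a c ha hc t
    have h1 := diag_transv hij hkl a ha t (c * t) (by rw [hc]; ring)
    have h2 : U (SpecialLinearGroup.diag2n hij a ha)
        (U (SpecialLinearGroup.transvection hkl t) v) =
        U (SpecialLinearGroup.transvection hkl (c * t)) v := by
      rw [← mul_apply_eq_comp, ← map_mul, h1, map_mul, mul_apply_eq_comp,
        hv a ha]
    have h4 : U (SpecialLinearGroup.diag2n hij a ha)
        (U (SpecialLinearGroup.transvection hkl t) v - v) =
        U (SpecialLinearGroup.transvection hkl (c * t)) v - v := by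
      rw [map_sub, h2, hv a ha]
    rw [← h4, hU.iso]
  have hfix : ∀ (k l : Fin d) (hkl : k ≠ l) (a c : ℝ), a ≠ 0 →
      dg i j a k = c * dg i j a l → 0 ≤ c → c < 1 → ∀ t : ℝ,
      U (SpecialLinearGroup.transvection hkl t) v = v := by
    intro k l hkl a c ha hc hc0 hc1 t
    have hn : ∀ n : ℕ, ‖U (SpecialLinearGroup.transvection hkl t) v - v‖ =
        ‖U (SpecialLinearGroup.transvection hkl (c ^ n * t)) v - v‖ := by
      intro n
      induction n with
      | zero => rw [pow_zero, one_mul]
      | succ n ih =>
        rw [ih, hstep k l hkl a c ha hc (c ^ n * t)]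
        congr 4
        ring_nf
    have hlim0 : Tendsto (fun n : ℕ => c ^ n * t) atTop (𝓝 0) := by
      have := (tendsto_pow_atTop_nhds_zero_of_lt_one hc0 hc1).mul_const t
      rwa [zero_mul] at this
    have hF : Continuous fun s : ℝ => ‖U (SpecialLinearGroup.transvection hkl s) v - v‖ :=
      (((hU.cont v).comp (cont_transv hkl)).sub continuous_const).norm
    have hlim := (hF.tendsto 0).comp hlim0
    have h0 : ‖U (SpecialLinearGroup.transvection hkl (0 : ℝ)) v - v‖ = 0 := by
      rw [SpecialLinearGroup.transvection_coeff_zero, map_one, one_apply_eq_self,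
        sub_self, norm_zero]
    rw [h0] at hlim
    have hconst : Tendsto (fun _ : ℕ => ‖U (SpecialLinearGroup.transvection hkl t) v - v‖) atTop
        (𝓝 0) := by
      refine hlim.congr fun n => ?_
      exact (hn n).symm
    have h1 := tendsto_nhds_unique hconst tendsto_const_nhds
    rw [← sub_eq_zero, ← norm_eq_zero]
    exact h1.symm
  -- transvections which meet `{i, j}`
  have hmeet : ∀ (k l : Fin d) (hkl : k ≠ l), (k = i ∨ k = j ∨ l = i ∨ l = j) → ∀ t : ℝ,
      U (SpecialLinearGroup.transvection hkl t) v = v := by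
    intro k l hkl hm t
    by_cases hki : k = i
    · by_cases hlj : l = j
      · refine hfix k l hkl (1 / 2) (1 / 4) (by norm_num) ?_ (by norm_num) (by norm_num) t
        unfold dg
        rw [if_pos hki, if_neg (by rw [hlj]; exact hij.symm), if_pos hlj]
        norm_num
      · refine hfix k l hkl (1 / 2) (1 / 2) (by norm_num) ?_ (by norm_num) (by norm_num) t
        unfold dg
        rw [if_pos hki, if_neg (fun h => hkl (hki.trans h.symm)), if_neg hlj]
        norm_num
    · by_cases hkj : k = j
      · by_cases hli : l = i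
        · refine hfix k l hkl 2 (1 / 4) (by norm_num) ?_ (by norm_num) (by norm_num) t
          unfold dg
          rw [if_neg hki, if_pos hkj, if_pos hli]
          norm_num
        · refine hfix k l hkl 2 (1 / 2) (by norm_num) ?_ (by norm_num) (by norm_num) t
          unfold dg
          rw [if_neg hki, if_pos hkj, if_neg hli, if_neg (fun h => hkl (hkj.trans h.symm))]
          norm_num
      · by_cases hli : l = i
        · refine hfix k l hkl 2 (1 / 2) (by norm_num) ?_ (by norm_num) (by norm_num) t
          unfold dg
          rw [if_neg hki, if_neg hkj, if_pos hli]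
          norm_num
        · have hlj : l = j := by
            rcases hm with h | h | h | h
            · exact absurd h hki
            · exact absurd h hkj
            · exact absurd h hli
            · exact h
          refine hfix k l hkl (1 / 2) (1 / 2) (by norm_num) ?_ (by norm_num) (by norm_num) t
          unfold dg
          rw [if_neg hki, if_neg hkj, if_neg hli, if_pos hlj]
          norm_num
  -- all transvections
  have htr : ∀ (k l : Fin d) (hkl : k ≠ l) (t : ℝ),
      U (SpecialLinearGroup.transvection hkl t) v = v := by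
    intro k l hkl t
    by_cases hm : k = i ∨ k = j ∨ l = i ∨ l = j
    · exact hmeet k l hkl hm t
    · push Not at hm
      obtain ⟨hki, -, hli, -⟩ := hm
      rw [transv_comm hki hli.symm hkl t, map_mul, map_mul, map_mul,
        mul_apply_eq_comp, mul_apply_eq_comp,
        mul_apply_eq_comp, hmeet i l hli.symm (Or.inl rfl),
        hmeet k i hki (Or.inr (Or.inr (Or.inl rfl))), hmeet i l hli.symm (Or.inl rfl),
        hmeet k i hki (Or.inr (Or.inr (Or.inl rfl)))]
  have : Nontrivial (Fin d) := ⟨⟨i, j, hij⟩⟩
  refine SpecialLinearGroup.diagonal_transvection_induction' (fun g : SLR d => U g v = v) g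
    ?_ ?_ ?_
  · intro k l hkl c hc
    exact h3 d H U hU k l hkl v (htr k l hkl) c hc
  · intro k l hkl t
    exact htr k l hkl t
  · intro A B hA hB
    rw [map_mul, mul_apply_eq_comp, hB, hA]

end Pool.Agent.H707.IE
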