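import Pool.Agent.H773.IE.SR

/-! Project IE: paths to the letters outside of `B`. -/

set_option autoImplicit false

open MeasureTheory Set Filter Topology
open scoped ENNReal

namespace Pool.Agent.H707.IE

open Pool.Agent.H773.IE

theorem t_path (hex : S_ex) (htie : S_tie) (hK : S_K) : S_path := by
  classical
  intro m hm s hs B hB
  -- a length vector without ties
  have hlam : ∃ lam : Fin (m + 1) → ℝ, (∀ i, 0 < lam i) ∧ NoTie s lam := by
    obtain ⟨-, hp, hpos, -, -⟩ := hex (m + 1) (fun _ => 1) (fun _ => one_pos)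
    have ht := htie m hm s hs (fun _ => 1) (fun _ => one_pos)
    have hne : NeZero (EE (fun _ : Fin (m + 1) => (1 : ℝ))) := ⟨hp.ne_zero⟩
    obtain ⟨lam, h1, h2⟩ := (hpos.and ht).exists
    exact ⟨lam, h1, h2⟩
  obtain ⟨lam, hpos, hnt⟩ := hlam
  obtain ⟨i, hi⟩ : ∃ i, i ∉ B := by
    by_contra h
    push Not at h
    exact hB (Finset.eq_univ_iff_forall.2 h)
  obtain ⟨p, b, -, hw⟩ := hK m hm s lam hs hpos hnt i
  have hQ : ∃ n : ℕ, ∃ p : List Bool, p.length = n ∧ (et (run p s) ∉ B ∨ eb (run p s) ∉ B) := by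
    refine ⟨p.length, p, rfl, ?_⟩
    unfold win at hw
    cases b with
    | true =>
      left
      rw [if_pos rfl] at hw
      rw [hw]
      exact hi
    | false =>
      right
      rw [if_neg Bool.false_ne_true] at hw
      rw [hw]
      exact hi
  obtain ⟨p₀, hlen, hp₀⟩ := Nat.find_spec hQ
  refine ⟨p₀, hp₀, fun p' hp' hne => ?_⟩
  have hlt : p'.length < Nat.find hQ := by
    rw [← hlen]
    refine lt_of_le_of_ne hp'.length_le fun h => hne (hp'.eq_of_length h)
  have hmin := Nat.find_min hQ hlt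
  by_contra hcon
  refine hmin ⟨p', rfl, ?_⟩
  by_contra h
  push Not at h
  exact hcon h

end Pool.Agent.H707.IE
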